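import Mathlib
import Pool.Agent.H82.FEmb

set_option autoImplicit false

namespace Pool.Agent.Results.MP_aca66f_gt.MichaelLine

open Set Filter Topology Pool.Agent.H82.FEmb

abbrev C := ℕ → Bool

def Q : Set C := {x | {n | x n = true}.Finite}

structure M : Type where
  toC : C

open M

instance : TopologicalSpace M where
  IsOpen U := ∀ q : C, q ∈ Q → M.mk q ∈ U → M.mk ⁻¹' U ∈ 𝓝 q
  isOpen_univ := fun _ _ _ => univ_mem
  isOpen_inter := fun _ _ hs ht q hq h => inter_mem (hs q hq h.1) (ht q hq h.2)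
  isOpen_sUnion := fun _ h q hq ⟨t, ht, hqt⟩ =>
    mem_of_superset (h t ht q hq hqt) (preimage_mono (subset_sUnion_of_mem ht))

lemma open_iff {U : Set M} : IsOpen U ↔ ∀ q : C, q ∈ Q → M.mk q ∈ U → M.mk ⁻¹' U ∈ 𝓝 q :=
  Iff.rfl

lemma toC_cont : Continuous toC :=
  ⟨fun _ hs => open_iff.2 fun _ _ h => hs.mem_nhds h⟩

lemma Q_count : Q.Countable := by
  have h : (Set.range fun s : Finset ℕ => (fun n => decide (n ∈ s) : C)).Countable :=
    countable_range _
  refine h.mono fun x hx => ?_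
  have hx' : {n | x n = true}.Finite := hx
  refine ⟨hx'.toFinset, funext fun n => ?_⟩
  cases h : x n <;> simp [h]

def cyl (z : C) (k : ℕ) : Set C := {x | ∀ i < k, x i = z i}

lemma cyl_clopen (z : C) (k : ℕ) : IsClopen (cyl z k) := by
  have : cyl z k = ⋂ m ∈ Finset.range k, {x : C | x m = z m} := by
    ext x; simp [cyl]
  rw [this]
  exact isClopen_biInter_finset fun m _ =>
    (isClopen_discrete {z m}).preimage (continuous_apply m)

lemma exists_cyl {O : Set C} {z : C} (h : O ∈ 𝓝 z) : ∃ k, cyl z k ⊆ O := by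
  rw [nhds_pi, Filter.mem_pi] at h
  obtain ⟨I, hI, t, ht, hO⟩ := h
  obtain ⟨k, hk⟩ := hI.bddAbove
  refine ⟨k + 1, fun x hx => hO fun i hi => ?_⟩
  rw [hx i (Nat.lt_succ_of_le (hk hi))]
  exact mem_of_mem_nhds (ht i)

lemma Q_dense : Dense Q := by
  intro x
  rw [mem_closure_iff_nhds]
  intro t ht
  obtain ⟨k, hk⟩ := exists_cyl ht
  refine ⟨fun i => if i < k then x i else false, hk fun i hi => if_pos hi,
    (finite_Iio k).subset fun i hi => ?_⟩
  by_contra h
  simp only [mem_ofPred_eq, if_neg (show ¬ i < k from h)] at hi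
  cases hi

lemma sepc {A B : Set M} (hA : IsClosed A) (hB : IsClosed B) (h : Disjoint A B) :
    HasSeparatingCover A B := by
  have h1 : ∀ q : C, ∃ k, q ∈ Q → M.mk q ∈ A → cyl q k ⊆ M.mk ⁻¹' Bᶜ := by
    intro q
    by_cases hq : q ∈ Q ∧ M.mk q ∈ A
    · obtain ⟨k, hk⟩ := exists_cyl
        (open_iff.1 hB.isOpen_compl q hq.1 (Set.disjoint_left.1 h hq.2))
      exact ⟨k, fun _ _ => hk⟩
    · exact ⟨0, fun a b => absurd ⟨a, b⟩ hq⟩
  choose k hk using h1
  obtain ⟨e, he⟩ := Q_count.exists_eq_range ⟨fun _ => false, by simp [Q]⟩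
  classical
  let u : ℕ → Set M := fun n => if M.mk (e n) ∈ A then toC ⁻¹' cyl (e n) (k (e n)) else ∅
  have hu : ∀ n, IsClopen (u n) := fun n => by
    simp only [u]
    split_ifs
    · exact (cyl_clopen _ _).preimage toC_cont
    · exact isClopen_empty
  have hA' : IsClopen (A \ ⋃ n, u n) := by
    refine ⟨hA.sdiff (isOpen_iUnion fun n => (hu n).isOpen), open_iff.2 fun q hq hq' => ?_⟩
    obtain ⟨n, rfl⟩ := he ▸ hq
    refine absurd (mem_iUnion.2 ⟨n, ?_⟩) hq'.2
    simp only [u]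
    rw [if_pos hq'.1]
    exact fun _ _ => rfl
  refine ⟨fun n => Nat.casesOn n (A \ ⋃ n, u n) u, fun x hx => ?_, fun n => ?_⟩
  · by_cases h2 : x ∈ ⋃ n, u n
    · obtain ⟨n, hn⟩ := mem_iUnion.1 h2
      exact mem_iUnion.2 ⟨n + 1, hn⟩
    · exact mem_iUnion.2 ⟨0, hx, h2⟩
  · cases n with
    | zero =>
      refine ⟨hA'.isOpen, ?_⟩
      show Disjoint (closure (A \ ⋃ n, u n)) B
      rw [hA'.isClosed.closure_eq]; exact h.mono_left sdiff_subset
    | succ n =>
      refine ⟨(hu n).isOpen, ?_⟩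
      show Disjoint (closure (u n)) B
      rw [(hu n).isClosed.closure_eq]
      simp only [u]
      split_ifs with h2
      · exact Set.disjoint_left.2 fun x hx => hk _ (he ▸ mem_range_self n) h2 hx
      · exact empty_disjoint _

def flip (k : ℕ) (x : C) : C := fun i => if i < k then x i else !x i

lemma flip_flip (k : ℕ) (x : C) : flip k (flip k x) = x := by
  funext i; simp only [flip]; split_ifs <;> simp

lemma flip_cont (k : ℕ) : Continuous (flip k) := by
  refine continuous_pi fun i => ?_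
  simp only [flip]
  split_ifs
  · exact continuous_apply i
  · exact (continuous_of_discreteTopology (f := fun b : Bool => !b)).comp (continuous_apply i)

def flipH (k : ℕ) : C ≃ₜ C :=
  ⟨⟨flip k, flip k, flip_flip k, flip_flip k⟩, flip_cont k, flip_cont k⟩

noncomputable def UU : Set C := {x | {n | x n = true} ∈ hyperfilter ℕ}

lemma UU_flip (k : ℕ) (x : C) : flip k x ∈ UU ↔ x ∉ UU := by
  simp only [UU, mem_ofPred_eq]
  rw [← Ultrafilter.compl_mem_iff_notMem]
  refine Filter.eventually_congr ?_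
  filter_upwards [(hyperfilter_le_cofinite (α := ℕ)) (Nat.cofinite_eq_atTop ▸ eventually_ge_atTop k)]
    with i hi
  have : ¬ i < k := not_lt.2 hi
  show flip k x i = true ↔ ¬ x i = true
  simp [flip, this]

lemma UU_notQ {x : C} (h : x ∈ UU) : x ∉ Q := fun hq => Set.Finite.notMem_hyperfilter hq h

lemma both (k : ℕ) {G : Set C} (hG : G ∈ residual C) {V : Set C} (hV : IsOpen V)
    (hne : V.Nonempty) : ∃ x ∈ V, x ∈ G ∧ flip k x ∈ G := by
  have h1 : flip k ⁻¹' G ∈ residual C := by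
    have := (flipH k).residual_map_eq
    rw [← this] at hG
    exact hG
  obtain ⟨x, hx, h2⟩ := (dense_of_mem_residual (inter_mem hG h1)).inter_open_nonempty V hV hne
  exact ⟨x, hx, h2⟩

lemma main {B : Set M} (hB : FFs B) (h : ∀ x : C, x ∉ Q → (x ∈ UU ↔ M.mk x ∈ B)) : False := by
  obtain ⟨Z, hZ, rfl⟩ := hB
  have h1 : ∃ n, (interior (closure (M.mk ⁻¹' Z n))).Nonempty := by
    by_contra h1
    push Not at h1
    have h2 : (⋂ n, (closure (M.mk ⁻¹' Z n))ᶜ) ∈ residual C :=
      countable_iInter_mem.2 fun n => residual_of_dense_open isClosed_closure.isOpen_compl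
        (interior_eq_empty_iff_dense_compl.1 (h1 n))
    obtain ⟨x, -, h3, h4⟩ := both 0 h2 isOpen_univ univ_nonempty
    have h5 : ∀ y ∈ ⋂ n, (closure (M.mk ⁻¹' Z n))ᶜ, y ∉ UU := fun y hy hy' => by
      obtain ⟨n, hn⟩ := mem_iUnion.1 ((h y (UU_notQ hy')).1 hy')
      exact mem_iInter.1 hy n (subset_closure hn)
    exact h5 _ h4 ((UU_flip 0 x).2 (h5 _ h3))
  obtain ⟨n, z, hz⟩ := h1
  obtain ⟨k, hk⟩ := exists_cyl (isOpen_interior.mem_nhds hz)
  have hc := (hZ n).isClosed
  obtain ⟨f, hf, hfZ⟩ := hZ n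
  have h2 : ∀ q ∈ Q, q ∈ cyl z k → M.mk q ∈ Z n := fun q hq hq' => by
    by_contra h3
    obtain ⟨y, h4, h5⟩ := mem_closure_iff_nhds.1 (interior_subset (hk hq')) _
      (open_iff.1 hc.isOpen_compl q hq h3)
    exact h4 h5
  let O : ℕ → Set C := fun j =>
    interior (M.mk ⁻¹' {x : M | (f x : ℝ) < 1 / (j + 1)}) ∪ (cyl z k)ᶜ
  have h3 : ∀ j, O j ∈ residual C := fun j => by
    refine residual_of_dense_open (isOpen_interior.union (cyl_clopen _ _).compl.isOpen)
      (Q_dense.mono fun q hq => ?_)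
    by_cases h4 : q ∈ cyl z k
    · refine Or.inl (mem_interior_iff_mem_nhds.2 (open_iff.1
        (isOpen_lt (continuous_subtype_val.comp hf) continuous_const) q hq ?_))
      have h5 : f ⟨q⟩ = 0 := by have := h2 q hq h4; rwa [hfZ] at this
      show (f ⟨q⟩ : ℝ) < _
      rw [h5]
      exact Nat.one_div_pos_of_nat
    · exact Or.inr h4
  have h4 : Qᶜ ∈ residual C := by
    rw [← biUnion_of_singleton Q, compl_iUnion₂]
    refine (countable_bInter_mem Q_count).2 fun q _ =>
      residual_of_dense_open isOpen_compl_singleton ?_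
    intro x
    rw [mem_closure_iff_nhds]
    intro t ht
    obtain ⟨m, hm⟩ := exists_cyl ht
    refine ⟨fun i => if i < m then x i else !q i, hm fun i hi => if_pos hi, fun h5 => ?_⟩
    have := congrFun h5 m
    simp at this
  obtain ⟨x, hx, h5, h6⟩ := both k (inter_mem (countable_iInter_mem.2 h3) h4)
    (cyl_clopen z k).isOpen ⟨z, fun _ _ => rfl⟩
  have h7 : ∀ y ∈ cyl z k, y ∈ (⋂ j, O j) ∩ Qᶜ → y ∈ UU := fun y hy hy' => by
    refine (h y hy'.2).2 (mem_iUnion.2 ⟨n, ?_⟩)
    rw [hfZ]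
    refine Subtype.ext (le_antisymm ?_ (f ⟨y⟩).2.1)
    refine ge_of_tendsto' tendsto_one_div_add_atTop_nhds_zero_nat fun j => ?_
    rcases mem_iInter.1 hy'.1 j with h8 | h8
    · have h9 := interior_subset h8
      exact le_of_lt h9
    · exact absurd hy h8
  exact (UU_flip k x).1 (h7 _ (fun i hi => by simp only [flip, if_pos hi]; exact hx i hi) h6)
    (h7 _ hx h5)

theorem result : ∃ (X : Type) (_ : TopologicalSpace X), T1Space X ∧ NormalSpace X ∧
    ∃ E : Set X, FGd E ∧ ¬ OneEmb E := by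
  refine ⟨M, inferInstance, ?_, ?_, toC ⁻¹' Qᶜ, ?_, fun h => ?_⟩
  · exact t1Space_of_injective_of_continuous (f := toC) (fun _ _ h => congrArg M.mk h) toC_cont
  · exact ⟨fun A B hA hB h => hasSeparatingCovers_iff_separatedNhds.1
      ⟨sepc hA hB h, sepc hB hA h.symm⟩⟩
  · have := Q_count.to_subtype
    have h1 : FFs (⋃ q : Q, ({q.1} : Set C)) := ffs_iUnion fun q => (fclosed_single q.1).ffs
    rw [iUnion_of_singleton_coe] at h1
    exact (h1.preimage toC_cont).compl
  · have h1 : ∀ A : Set (toC ⁻¹' Qᶜ : Set M), IsOpen A := fun A => by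
      refine isOpen_induced_iff.2 ⟨Subtype.val '' A, open_iff.2 ?_,
        preimage_image_eq _ Subtype.val_injective⟩
      rintro q hq ⟨y, -, hy⟩
      exact absurd hq (show toC ⟨q⟩ ∈ Qᶜ from hy ▸ y.2)
    obtain ⟨B, hB, h2⟩ := h.1 {x | toC x.1 ∈ UU}
      (fclosed_clopen ⟨⟨h1 _⟩, h1 _⟩).ffs
    exact main hB fun x hx => Set.ext_iff.1 h2 ⟨⟨x⟩, hx⟩

end Pool.Agent.Results.MP_aca66f_gt.MichaelLine
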